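import Mathlib
import Pool.Agent.H.MP_1df3f9_co.A

set_option autoImplicit false

namespace Pool.Agent.Results.MP_583f0b_co.NoSMC

open Pool.Agent.H.MP_1df3f9_co

theorem result (n : ℕ) :
    ∃ (Q : Type) (_ : PartialOrder Q), Cardinal.mk Q = Cardinal.aleph n ∧
      (∀ A : Set Q, IsAntichain (· ≤ ·) A → A.Finite) ∧
      ∀ C : Set Q, IsChain (· ≤ ·) C → ∃ D : Set Q, IsChain (· ≤ ·) D ∧
        Cardinal.mk ↥(C \ D) < Cardinal.mk ↥(D \ C) := by
  let L : Type := (Cardinal.aleph n).ord.ToType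
  let a : P.{0} → P.{0} ⊕ₗ L := fun x => toLex (Sum.inl x)
  let b : L → P.{0} ⊕ₗ L := fun x => toLex (Sum.inr x)
  have ha : ∀ x y, a x ≤ a y ↔ x ≤ y := fun x y => Sum.Lex.inl_le_inl_iff
  have hb : ∀ x y, b x ≤ b y ↔ x ≤ y := fun x y => Sum.Lex.inr_le_inr_iff
  have hab : ∀ x y, a x ≤ b y := fun x y => Sum.Lex.inl_le_inr x y
  have ai : Function.Injective a := fun x y e => Sum.inl.inj (toLex.injective e)
  have bi : Function.Injective b := fun x y e => Sum.inr.inj (toLex.injective e)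
  have ne : ∀ x y, a x ≠ b y := fun x y e => Sum.inl_ne_inr (toLex.injective e)
  have cases : ∀ z, (∃ x, z = a x) ∨ ∃ y, z = b y := by
    rintro (x | y)
    · exact Or.inl ⟨x, rfl⟩
    · exact Or.inr ⟨y, rfl⟩
  refine ⟨P.{0} ⊕ₗ L, inferInstance, ?_, ?_, ?_⟩
  · have hc : Cardinal.mk P.{0} ≤ Cardinal.aleph0 := by
      rw [Cardinal.mk_le_aleph0_iff]
      refine Function.Injective.countable (f := fun p : P.{0} => (p.n, p.i, p.t)) ?_
      intro p q e
      simp only [Prod.mk.injEq] at e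
      exact P.ext e.1 e.2.1 e.2.2
    have h1 : Cardinal.mk (P.{0} ⊕ₗ L) = Cardinal.mk P.{0} + Cardinal.mk L := by
      rw [Cardinal.add_def]
      exact Cardinal.mk_congr ofLex
    have h2 : Cardinal.mk L = Cardinal.aleph n := Cardinal.mk_ord_toType _
    rw [h1, h2]
    exact Cardinal.add_eq_right (Cardinal.aleph0_le_aleph _) (hc.trans (Cardinal.aleph0_le_aleph _))
  · intro A hA
    have h1 : (a ⁻¹' A).Finite := fac _ fun x hx y hy k l =>
      hA hx hy (fun e => k (ai e)) ((ha x y).2 l)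
    have h2 : (b ⁻¹' A).Finite := Set.Subsingleton.finite fun x hx y hy => by
      rcases le_total x y with l | l
      · exact bi (hA.eq hx hy ((hb x y).2 l))
      · exact (bi (hA.eq hy hx ((hb y x).2 l))).symm
    refine ((h1.image a).union (h2.image b)).subset fun z hz => ?_
    rcases cases z with ⟨x, rfl⟩ | ⟨y, rfl⟩
    · exact Or.inl ⟨x, hz, rfl⟩
    · exact Or.inr ⟨y, hz, rfl⟩
  · intro C hC
    have h1 : IsChain (· ≤ ·) (a ⁻¹' C) := fun x hx y hy k =>
      (hC hx hy (fun e => k (ai e))).imp (ha x y).1 (ha y x).1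
    have h2 : ¬ SM (a ⁻¹' C) := noSM _ h1
    unfold SM at h2
    push Not at h2
    obtain ⟨D, hD, hlt⟩ := h2
    refine ⟨a '' D ∪ (C ∩ Set.range b), ?_, ?_⟩
    · rintro _ (⟨x, hx, rfl⟩ | ⟨hx, x, rfl⟩) _ (⟨y, hy, rfl⟩ | ⟨hy, y, rfl⟩) k
      · exact (hD.total hx hy).imp (ha x y).2 (ha y x).2
      · exact Or.inl (hab x y)
      · exact Or.inr (hab y x)
      · exact hC hx hy k
    · have e1 : C \ (a '' D ∪ (C ∩ Set.range b)) = a '' (a ⁻¹' C \ D) := by
        ext z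
        constructor
        · rintro ⟨hz, k⟩
          rcases cases z with ⟨x, rfl⟩ | ⟨y, rfl⟩
          · exact ⟨x, ⟨hz, fun l => k (Or.inl ⟨x, l, rfl⟩)⟩, rfl⟩
          · exact absurd (Or.inr ⟨hz, y, rfl⟩) k
        · rintro ⟨x, ⟨hx, k⟩, rfl⟩
          refine ⟨hx, ?_⟩
          rintro (⟨y, hy, e⟩ | ⟨-, y, e⟩)
          · exact k (ai e ▸ hy)
          · exact ne x y e.symm
      have e2 : (a '' D ∪ (C ∩ Set.range b)) \ C = a '' (D \ a ⁻¹' C) := by
        ext z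
        constructor
        · rintro ⟨⟨x, hx, rfl⟩ | ⟨hz, -⟩, k⟩
          · exact ⟨x, ⟨hx, k⟩, rfl⟩
          · exact absurd hz k
        · rintro ⟨x, ⟨hx, k⟩, rfl⟩
          exact ⟨Or.inl ⟨x, hx, rfl⟩, k⟩
      rw [e1, e2, Cardinal.mk_image_eq ai, Cardinal.mk_image_eq ai]
      exact hlt

end Pool.Agent.Results.MP_583f0b_co.NoSMC
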